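import Pool.Agent.H13Z.FreeP.Inter

open Pool.Agent.H13Z.FreeP

universe u v

/-- Intersection theorem for Lipschitz free `p`-spaces over complete metric spaces, for an
arbitrary family of closed sets.  The hypothesis `IsFreeP` is satisfiable by
`Pool.Agent.H13Z.FreeP.exists_isFreeP`. -/
theorem Pool.Agent.Results.MP_259edd_an.AIntersection.result :
    ∀ (p : ℝ), 0 < p → p < 1 → ∀ (M : Type u) [MetricSpace M] [CompleteSpace M] (o : M)
      (F : Type u) [AddCommGroup F] [Module ℝ F] (N : F → ℝ) (δ : M → F),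
      IsFreeP ℝ p o N δ → ∀ (ι : Type v) (K : ι → Set M), (∀ i, IsClosed (K i)) →
      (⋂ i, closedSpan ℝ N δ (K i)) ⊆ closedSpan ℝ N δ (⋂ i, K i) :=
  fun _ hp hp1 _ _ _ _ _ _ _ _ _ h _ K hc z hz =>
    h.iInter hp hp1.le K hc z (Set.mem_iInter.1 hz)
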